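import Mathlib

open Filter Topology
open scoped ENNReal

namespace Pool.Agent.Lib.MP_355270_an

section C0

/-- The `c₀`-sum of the spaces `G n`, as a subspace of their `ℓ^∞`-sum. -/
def c0sum (𝕜 : Type*) [RCLike 𝕜] (G : ℕ → Type*) [∀ n, NormedAddCommGroup (G n)]
    [∀ n, NormedSpace 𝕜 (G n)] : Submodule 𝕜 (lp G ∞) where
  carrier := {y | Tendsto (fun n => ‖y n‖) atTop (𝓝 0)}
  zero_mem' := by
    show Tendsto (fun n => ‖(0 : lp G ∞) n‖) atTop (𝓝 0)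
    simp
  add_mem' := by
    intro a b ha hb
    show Tendsto (fun n => ‖(a + b : lp G ∞) n‖) atTop (𝓝 0)
    refine squeeze_zero (fun n => norm_nonneg _) (fun n => norm_add_le (a n) (b n)) ?_
    have h := Tendsto.add (show Tendsto (fun n => ‖a n‖) atTop (𝓝 0) from ha)
      (show Tendsto (fun n => ‖b n‖) atTop (𝓝 0) from hb)
    simpa using h
  smul_mem' := by
    intro c a ha
    show Tendsto (fun n => ‖(c • a : lp G ∞) n‖) atTop (𝓝 0)
    have h := Tendsto.const_mul ‖c‖ (show Tendsto (fun n => ‖a n‖) atTop (𝓝 0) from ha)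
    rw [mul_zero] at h
    refine h.congr (fun n => ?_)
    rw [lp.coeFn_smul, Pi.smul_apply, norm_smul]

variable {𝕜 : Type*} [RCLike 𝕜]
variable {G : ℕ → Type*} [∀ k, NormedAddCommGroup (G k)] [∀ k, NormedSpace 𝕜 (G k)]

theorem mem_c0sum {y : lp G ∞} : y ∈ c0sum 𝕜 G ↔ Tendsto (fun n => ‖y n‖) atTop (𝓝 0) :=
  Iff.rfl

theorem c0_tendsto (y : c0sum 𝕜 G) : Tendsto (fun n => ‖(y : lp G ∞) n‖) atTop (𝓝 0) := y.2

theorem c0_ext {a b : c0sum 𝕜 G} (h : ∀ n, (a : lp G ∞) n = (b : lp G ∞) n) : a = b :=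
  Subtype.ext (lp.ext (funext h))

theorem c0_norm_apply_le (a : c0sum 𝕜 G) (n : ℕ) : ‖(a : lp G ∞) n‖ ≤ ‖a‖ :=
  lp.norm_apply_le_norm ENNReal.top_ne_zero (a : lp G ∞) n

theorem c0_norm_le {a : c0sum 𝕜 G} {C : ℝ} (h : ∀ n, ‖(a : lp G ∞) n‖ ≤ C) : ‖a‖ ≤ C :=
  lp.norm_le_of_forall_le' C h

/-- A null sequence of vectors gives an element of the `c₀`-sum. -/
theorem c0_memlp (f : ∀ n, G n) (hf : Tendsto (fun n => ‖f n‖) atTop (𝓝 0)) : Memℓp f ∞ :=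
  memℓp_infty (hf.bddAbove_range)

/-- The element of the `c₀`-sum given by a null sequence. -/
def c0mk (𝕜 : Type*) [RCLike 𝕜] {G : ℕ → Type*} [∀ k, NormedAddCommGroup (G k)]
    [∀ k, NormedSpace 𝕜 (G k)] (f : ∀ n, G n)
    (hf : Tendsto (fun n => ‖f n‖) atTop (𝓝 0)) : c0sum 𝕜 G :=
  ⟨⟨f, c0_memlp f hf⟩, hf⟩

theorem c0mk_apply (f : ∀ n, G n) (hf : Tendsto (fun n => ‖f n‖) atTop (𝓝 0)) (n : ℕ) :
    (c0mk 𝕜 f hf : lp G ∞) n = f n := rfl

/-- The evaluation maps. -/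
noncomputable def c0ev (𝕜 : Type*) [RCLike 𝕜] (G : ℕ → Type*) [∀ k, NormedAddCommGroup (G k)]
    [∀ k, NormedSpace 𝕜 (G k)] (n : ℕ) : c0sum 𝕜 G →L[𝕜] G n :=
  (lp.evalCLM 𝕜 G ∞ n).comp (c0sum 𝕜 G).subtypeL

theorem c0ev_apply (n : ℕ) (y : c0sum 𝕜 G) : c0ev 𝕜 G n y = (y : lp G ∞) n := rfl

/-- The operator into the `c₀`-sum given by a bounded pointwise null sequence of operators. -/
noncomputable def c0lift {X : Type*} [NormedAddCommGroup X] [NormedSpace 𝕜 X]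
    (L : ∀ n, X →L[𝕜] G n) (C : ℝ) (hL : ∀ n x, ‖L n x‖ ≤ C * ‖x‖)
    (hT : ∀ x, Tendsto (fun n => ‖L n x‖) atTop (𝓝 0)) : X →L[𝕜] c0sum 𝕜 G :=
  LinearMap.mkContinuous
    { toFun := fun x => c0mk 𝕜 (fun n => L n x) (hT x)
      map_add' := fun x y => c0_ext (fun n => map_add (L n) x y)
      map_smul' := fun c x => c0_ext (fun n => map_smul (L n) c x) }
    C (fun x => c0_norm_le (fun n => hL n x))

theorem c0lift_apply {X : Type*} [NormedAddCommGroup X] [NormedSpace 𝕜 X]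
    (L : ∀ n, X →L[𝕜] G n) (C : ℝ) (hL : ∀ n x, ‖L n x‖ ≤ C * ‖x‖)
    (hT : ∀ x, Tendsto (fun n => ‖L n x‖) atTop (𝓝 0)) (x : X) (n : ℕ) :
    (c0lift L C hL hT x : lp G ∞) n = L n x := rfl

/-- The embeddings of the blocks. -/
noncomputable def c0sg (𝕜 : Type*) [RCLike 𝕜] (G : ℕ → Type*) [∀ k, NormedAddCommGroup (G k)]
    [∀ k, NormedSpace 𝕜 (G k)] (n : ℕ) : G n →L[𝕜] c0sum 𝕜 G :=
  (lp.singleContinuousLinearMap 𝕜 G ∞ n).codRestrict (c0sum 𝕜 G) (fun a => by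
    show Tendsto (fun k => ‖(lp.single ∞ n a : lp G ∞) k‖) atTop (𝓝 0)
    refine tendsto_const_nhds.congr' ?_
    filter_upwards [eventually_gt_atTop n] with k hk
    rw [lp.single_apply_ne _ _ _ (ne_of_gt hk), norm_zero])

theorem c0sg_coe (n : ℕ) (a : G n) : (c0sg 𝕜 G n a : lp G ∞) = lp.single ∞ n a := rfl

theorem c0sg_self (n : ℕ) (a : G n) : (c0sg 𝕜 G n a : lp G ∞) n = a := by
  rw [c0sg_coe, lp.single_apply_self]

theorem c0sg_ne {n k : ℕ} (h : k ≠ n) (a : G n) : (c0sg 𝕜 G n a : lp G ∞) k = 0 := by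
  rw [c0sg_coe, lp.single_apply_ne _ _ _ h]

theorem norm_c0sg_le (n : ℕ) (a : G n) : ‖c0sg 𝕜 G n a‖ ≤ ‖a‖ := by
  refine c0_norm_le (fun k => ?_)
  by_cases h : k = n
  · subst h
    rw [c0sg_self]
  · rw [c0sg_ne h, norm_zero]
    exact norm_nonneg _

/-- The truncations. -/
noncomputable def c0tau (𝕜 : Type*) [RCLike 𝕜] (G : ℕ → Type*) [∀ k, NormedAddCommGroup (G k)]
    [∀ k, NormedSpace 𝕜 (G k)] (n : ℕ) : c0sum 𝕜 G →L[𝕜] c0sum 𝕜 G :=
  c0lift (fun k => if k < n then c0ev 𝕜 G k else 0) 1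
    (fun k x => by
      by_cases h : k < n
      · rw [if_pos h, one_mul]
        exact c0_norm_apply_le x k
      · rw [if_neg h, one_mul]
        show ‖(0 : G k)‖ ≤ _
        rw [norm_zero]
        exact norm_nonneg _)
    (fun x => by
      refine tendsto_const_nhds.congr' ?_
      filter_upwards [eventually_ge_atTop n] with k hk
      rw [if_neg (by omega)]
      show (0 : ℝ) = ‖(0 : G k)‖
      rw [norm_zero])

theorem c0tau_coe (n : ℕ) (t : c0sum 𝕜 G) (k : ℕ) :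
    (c0tau 𝕜 G n t : lp G ∞) k = if k < n then (t : lp G ∞) k else 0 := by
  show (if k < n then c0ev 𝕜 G k else 0) t = _
  by_cases h : k < n
  · rw [if_pos h, if_pos h]
    rfl
  · rw [if_neg h, if_neg h]
    rfl

theorem c0tau_zero : c0tau 𝕜 G 0 = 0 := by
  refine ContinuousLinearMap.ext (fun t => c0_ext (fun k => ?_))
  rw [c0tau_coe, if_neg (Nat.not_lt_zero k)]
  rfl

theorem c0tau_comp (n m : ℕ) (t : c0sum 𝕜 G) :
    c0tau 𝕜 G n (c0tau 𝕜 G m t) = c0tau 𝕜 G (min n m) t := by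
  refine c0_ext (fun k => ?_)
  rw [c0tau_coe, c0tau_coe, c0tau_coe]
  by_cases h1 : k < n <;> by_cases h2 : k < m <;> simp [h1, h2]

theorem norm_c0tau_le (n : ℕ) (t : c0sum 𝕜 G) : ‖c0tau 𝕜 G n t‖ ≤ ‖t‖ := by
  refine c0_norm_le (fun k => ?_)
  rw [c0tau_coe]
  by_cases h : k < n
  · rw [if_pos h]
    exact c0_norm_apply_le t k
  · rw [if_neg h, norm_zero]
    exact norm_nonneg _

theorem tendsto_c0tau (t : c0sum 𝕜 G) : Tendsto (fun n => c0tau 𝕜 G n t) atTop (𝓝 t) := by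
  rw [Metric.tendsto_atTop]
  intro ε hε
  obtain ⟨N, hN⟩ := Metric.tendsto_atTop.mp (c0_tendsto t) (ε / 2) (half_pos hε)
  refine ⟨N, fun n hn => ?_⟩
  rw [dist_eq_norm]
  refine lt_of_le_of_lt ?_ (half_lt_self hε)
  refine c0_norm_le (fun k => ?_)
  show ‖(c0tau 𝕜 G n t : lp G ∞) k - (t : lp G ∞) k‖ ≤ _
  rw [c0tau_coe]
  by_cases h : k < n
  · rw [if_pos h, sub_self, norm_zero]
    exact (half_pos hε).le
  · rw [if_neg h, zero_sub, norm_neg]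
    have h1 := hN k (by omega)
    rw [Real.dist_eq, sub_zero, abs_of_nonneg (norm_nonneg _)] at h1
    exact h1.le

theorem c0ev_tau (n : ℕ) (t : c0sum 𝕜 G) : c0ev 𝕜 G n (c0tau 𝕜 G n t) = 0 := by
  rw [c0ev_apply, c0tau_coe, if_neg (lt_irrefl _)]

theorem norm_c0ev_le (n : ℕ) (t : c0sum 𝕜 G) : ‖c0ev 𝕜 G n t‖ ≤ ‖t‖ := c0_norm_apply_le t n

theorem c0ev_sg (n : ℕ) (a : G n) : c0ev 𝕜 G n (c0sg 𝕜 G n a) = a := by
  rw [c0ev_apply, c0sg_self]

theorem c0tau_sg (n k : ℕ) (a : G k) : c0tau 𝕜 G n (c0sg 𝕜 G k a) =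
    if k < n then c0sg 𝕜 G k a else 0 := by
  refine c0_ext (fun j => ?_)
  rw [c0tau_coe]
  by_cases h : k < n
  · rw [if_pos h]
    by_cases hj : j < n
    · rw [if_pos hj]
    · rw [if_neg hj, c0sg_ne (by omega)]
  · rw [if_neg h]
    by_cases hj : j < n
    · rw [if_pos hj, c0sg_ne (by omega)]
      rfl
    · rw [if_neg hj]
      rfl

theorem c0tau_succ (n : ℕ) (t : c0sum 𝕜 G) : c0tau 𝕜 G (n + 1) t =
    c0tau 𝕜 G n t + c0sg 𝕜 G n (c0ev 𝕜 G n t) := by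
  refine c0_ext (fun j => ?_)
  show (c0tau 𝕜 G (n + 1) t : lp G ∞) j =
    (c0tau 𝕜 G n t : lp G ∞) j + (c0sg 𝕜 G n (c0ev 𝕜 G n t) : lp G ∞) j
  rw [c0tau_coe, c0tau_coe]
  rcases lt_trichotomy j n with h | h | h
  · rw [if_pos (by omega), if_pos h, c0sg_ne (by omega), add_zero]
  · subst h
    rw [if_pos (by omega), if_neg (lt_irrefl _), c0sg_self, zero_add]
    rfl
  · rw [if_neg (by omega), if_neg (by omega), c0sg_ne (by omega), add_zero]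

theorem c0tau_finite [∀ k, FiniteDimensional 𝕜 (G k)] (n : ℕ) :
    FiniteDimensional 𝕜 (c0tau 𝕜 G n).toLinearMap.range := by
  induction n with
  | zero =>
    rw [c0tau_zero]
    have : (0 : c0sum 𝕜 G →L[𝕜] c0sum 𝕜 G).toLinearMap.range = ⊥ := by
      ext x; simp
    rw [this]
    infer_instance
  | succ n ih =>
    have hle : (c0tau 𝕜 G (n + 1)).toLinearMap.range ≤
        (c0tau 𝕜 G n).toLinearMap.range ⊔ (c0sg 𝕜 G n).toLinearMap.range := by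
      rintro _ ⟨x, rfl⟩
      show c0tau 𝕜 G (n + 1) x ∈ _
      rw [c0tau_succ]
      exact Submodule.add_mem_sup ⟨x, rfl⟩ ⟨c0ev 𝕜 G n x, rfl⟩
    exact Submodule.finiteDimensional_of_le hle

theorem c0sum_isClosed : IsClosed (c0sum 𝕜 G : Set (lp G ∞)) := by
  refine isClosed_of_closure_subset (fun y hy => ?_)
  show Tendsto (fun n => ‖y n‖) atTop (𝓝 0)
  rw [Metric.tendsto_atTop]
  intro ε hε
  obtain ⟨z, hz, hyz⟩ := Metric.mem_closure_iff.mp hy (ε / 2) (half_pos hε)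
  obtain ⟨N, hN⟩ := Metric.tendsto_atTop.mp (show Tendsto (fun n => ‖z n‖) atTop (𝓝 0) from hz)
    (ε / 2) (half_pos hε)
  refine ⟨N, fun n hn => ?_⟩
  have h1 := hN n hn
  rw [Real.dist_eq, sub_zero, abs_of_nonneg (norm_nonneg _)] at h1 ⊢
  have h2 : ‖(y - z) n‖ < ε / 2 := by
    rw [dist_eq_norm] at hyz
    exact lt_of_le_of_lt (lp.norm_apply_le_norm ENNReal.top_ne_zero (y - z) n) hyz
  have h3 : y n = (y - z) n + z n := by
    rw [lp.coeFn_sub, Pi.sub_apply, sub_add_cancel]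
  calc ‖y n‖ = ‖(y - z) n + z n‖ := by rw [← h3]
    _ ≤ ‖(y - z) n‖ + ‖z n‖ := norm_add_le _ _
    _ < ε := by linarith

instance c0sum_complete [∀ k, CompleteSpace (G k)] : CompleteSpace (c0sum 𝕜 G) :=
  c0sum_isClosed.completeSpace_coe

end C0

end Pool.Agent.Lib.MP_355270_an
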