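import Mathlib
import Pool.Agent.Lib.MP_355270_an.AbsorbP
import Pool.Agent.Lib.MP_355270_an.C0.Basic

open Filter Topology
open scoped ENNReal

namespace Pool.Agent.Lib.MP_355270_an

universe u

section AbsorbC

variable {𝕜 : Type*} [RCLike 𝕜]
variable {F : ℕ → Type u} [∀ k, NormedAddCommGroup (F k)] [∀ k, NormedSpace 𝕜 (F k)]
variable {G : ℕ → Type u} [∀ k, NormedAddCommGroup (G k)] [∀ k, NormedSpace 𝕜 (G k)]

theorem tendsto_comp_inj {a : ℕ → ℝ} (ha : Tendsto a atTop (𝓝 0)) {ι : ℕ → ℕ}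
    (hι : Function.Injective ι) : Tendsto (fun n => a (ι n)) atTop (𝓝 0) :=
  ha.comp hι.nat_tendsto_atTop

theorem absorbC_of_bij [∀ k, CompleteSpace (F k)] [∀ k, CompleteSpace (G k)] (C : ℝ)
    (h : ℕ ⊕ ℕ → ℕ) (hb : Function.Bijective h)
    (T : ∀ n, F n ≃L[𝕜] G (h (Sum.inl n))) (T' : ∀ n, G n ≃L[𝕜] G (h (Sum.inr n)))
    (hT : ∀ n x, ‖T n x‖ ≤ C * ‖x‖) (hTs : ∀ n x, ‖(T n).symm x‖ ≤ C * ‖x‖)
    (hT' : ∀ n x, ‖T' n x‖ ≤ C * ‖x‖) (hTs' : ∀ n x, ‖(T' n).symm x‖ ≤ C * ‖x‖) :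
    Nonempty ((c0sum 𝕜 F × c0sum 𝕜 G) ≃L[𝕜] c0sum 𝕜 G) := by
  classical
  set C' : ℝ := max C 0 with hC'
  have hC0 : 0 ≤ C' := le_max_right _ _
  have hCC : C ≤ C' := le_max_left _ _
  have hinl : Function.Injective (fun n => h (Sum.inl n)) := hb.1.comp Sum.inl_injective
  have hinr : Function.Injective (fun n => h (Sum.inr n)) := hb.1.comp Sum.inr_injective
  have hs1 : ∀ g : c0sum 𝕜 G,
      Tendsto (fun n => ‖(T n).symm ((g : lp G ∞) (h (Sum.inl n)))‖) atTop (𝓝 0) := by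
    intro g
    have h1 := (tendsto_comp_inj (c0_tendsto g) hinl).const_mul C
    rw [mul_zero] at h1
    exact squeeze_zero (fun n => norm_nonneg _) (fun n => hTs n _) h1
  have hs2 : ∀ g : c0sum 𝕜 G,
      Tendsto (fun n => ‖(T' n).symm ((g : lp G ∞) (h (Sum.inr n)))‖) atTop (𝓝 0) := by
    intro g
    have h1 := (tendsto_comp_inj (c0_tendsto g) hinr).const_mul C
    rw [mul_zero] at h1
    exact squeeze_zero (fun n => norm_nonneg _) (fun n => hTs' n _) h1
  have hbd : ∀ (g : c0sum 𝕜 G) (j : ℕ), C * ‖(g : lp G ∞) j‖ ≤ C' * ‖g‖ := fun g j =>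
    (mul_le_mul_of_nonneg_right hCC (norm_nonneg _)).trans
      (mul_le_mul_of_nonneg_left (c0_norm_apply_le g j) hC0)
  let L1 : c0sum 𝕜 G →L[𝕜] c0sum 𝕜 F :=
    c0lift (fun n => ((T n).symm : G (h (Sum.inl n)) →L[𝕜] F n).comp (c0ev 𝕜 G (h (Sum.inl n)))) C'
      (fun n g => (hTs n _).trans (hbd g _)) hs1
  let L2 : c0sum 𝕜 G →L[𝕜] c0sum 𝕜 G :=
    c0lift (fun n => ((T' n).symm : G (h (Sum.inr n)) →L[𝕜] G n).comp
      (c0ev 𝕜 G (h (Sum.inr n)))) C' (fun n g => (hTs' n _).trans (hbd g _)) hs2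
  have hL1 : ∀ g n, (L1 g : lp F ∞) n = (T n).symm ((g : lp G ∞) (h (Sum.inl n))) :=
    fun g n => rfl
  have hL2 : ∀ g n, (L2 g : lp G ∞) n = (T' n).symm ((g : lp G ∞) (h (Sum.inr n))) :=
    fun g n => rfl
  let Lc : c0sum 𝕜 G →L[𝕜] c0sum 𝕜 F × c0sum 𝕜 G := L1.prod L2
  have hinj : LinearMap.ker Lc.toLinearMap = ⊥ := by
    rw [LinearMap.ker_eq_bot']
    intro g hg
    have hg1 : L1 g = 0 := congrArg Prod.fst hg
    have hg2 : L2 g = 0 := congrArg Prod.snd hg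
    refine c0_ext (fun j => ?_)
    obtain ⟨i, rfl⟩ := hb.2 j
    show (g : lp G ∞) (h i) = 0
    cases i with
    | inl n =>
      have : (T n).symm ((g : lp G ∞) (h (Sum.inl n))) = 0 := by
        rw [← hL1, hg1]
        rfl
      simpa using this
    | inr n =>
      have : (T' n).symm ((g : lp G ∞) (h (Sum.inr n))) = 0 := by
        rw [← hL2, hg2]
        rfl
      simpa using this
  have hsurj : LinearMap.range Lc.toLinearMap = ⊤ := by
    rw [eq_top_iff]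
    rintro ⟨f, g⟩ _
    let σ : ℕ ⊕ ℕ ≃ ℕ := Equiv.ofBijective h hb
    let k : ∀ i : ℕ ⊕ ℕ, G (σ i) := fun i => match i with
      | Sum.inl n => T n ((f : lp F ∞) n)
      | Sum.inr n => T' n ((g : lp G ∞) n)
    let q : ∀ j, G j := Equiv.piCongrLeft G σ k
    have hq : ∀ i, q (h i) = k i := fun i => Equiv.piCongrLeft_apply_apply G σ k i
    have hsum : Tendsto (fun j => ‖q j‖) atTop (𝓝 0) := by
      rw [← Nat.cofinite_eq_atTop]
      have hk : Tendsto (fun i => ‖k i‖) cofinite (𝓝 0) := by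
        rw [Metric.tendsto_nhds]
        intro ε hε
        have h1 : Tendsto (fun n => ‖T n ((f : lp F ∞) n)‖) atTop (𝓝 0) := by
          have h1 := (c0_tendsto f).const_mul C
          rw [mul_zero] at h1
          exact squeeze_zero (fun n => norm_nonneg _) (fun n => hT n _) h1
        have h2 : Tendsto (fun n => ‖T' n ((g : lp G ∞) n)‖) atTop (𝓝 0) := by
          have h1 := (c0_tendsto g).const_mul C
          rw [mul_zero] at h1
          exact squeeze_zero (fun n => norm_nonneg _) (fun n => hT' n _) h1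
        rw [← Nat.cofinite_eq_atTop] at h1 h2
        have h3 := (Metric.tendsto_nhds.mp h1) ε hε
        have h4 := (Metric.tendsto_nhds.mp h2) ε hε
        rw [eventually_cofinite] at h3 h4 ⊢
        refine ((h3.image Sum.inl).union (h4.image Sum.inr)).subset ?_
        rintro (n | n) hn
        · exact Or.inl ⟨n, hn, rfl⟩
        · exact Or.inr ⟨n, hn, rfl⟩
      have h5 : (fun j => ‖q j‖) = (fun i => ‖k i‖) ∘ σ.symm := by
        funext j
        obtain ⟨i, rfl⟩ := σ.surjective j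
        show ‖q (σ i)‖ = ‖k (σ.symm (σ i))‖
        rw [σ.symm_apply_apply]
        exact congrArg (fun v => ‖v‖) (hq i)
      rw [h5]
      exact hk.comp σ.symm.injective.tendsto_cofinite
    refine ⟨c0mk 𝕜 q hsum, ?_⟩
    show (L1 _, L2 _) = _
    refine Prod.ext (c0_ext ?_) (c0_ext ?_)
    · intro n
      show (T n).symm (q (h (Sum.inl n))) = (f : lp F ∞) n
      rw [hq]
      show (T n).symm (T n ((f : lp F ∞) n)) = (f : lp F ∞) n
      simp
    · intro n
      show (T' n).symm (q (h (Sum.inr n))) = (g : lp G ∞) n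
      rw [hq]
      show (T' n).symm (T' n ((g : lp G ∞) n)) = (g : lp G ∞) n
      simp
  exact ⟨(ContinuousLinearEquiv.ofBijective Lc hinj hsurj).symm⟩

/-- Absorption for `c₀`-sums. -/
theorem absorbC [∀ k, CompleteSpace (F k)] [∀ k, CompleteSpace (G k)]
    (C : ℝ) (hC : 1 ≤ C)
    (hF : ∀ n, {j | Iso 𝕜 C (F n) (G j)}.Infinite)
    (hG : ∀ n, {j | Iso 𝕜 C (G n) (G j)}.Infinite) :
    Nonempty ((c0sum 𝕜 F × c0sum 𝕜 G) ≃L[𝕜] c0sum 𝕜 G) := by
  obtain ⟨h, hb, h1, h2⟩ := exists_matching 𝕜 C hC hF hG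
  choose T hT hTs using h1
  choose T' hT' hTs' using h2
  exact absorbC_of_bij C h hb T T' hT hTs hT' hTs'

end AbsorbC

end Pool.Agent.Lib.MP_355270_an
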