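import Mathlib
import Pool.Agent.Lib.MP_355270_an.Final
import Pool.Agent.Lib.MP_355270_an.StepCp
import Pool.Agent.Lib.MP_355270_an.C0.Absorb

open Filter Topology
open scoped ENNReal

namespace Pool.Agent.Lib.MP_355270_an

universe u

/-- Step C with the `c₀`-sum of the blocks `H n`. -/
theorem basis_of_fdd_c_aux {𝕜 : Type*} [RCLike 𝕜] {X : Type*} [NormedAddCommGroup X]
    [NormedSpace 𝕜 X] [CompleteSpace X] (P : ℕ → X →L[𝕜] X) (hP0 : P 0 = 0)
    (hcomp : ∀ n m x, P n (P m x) = P (min n m) x)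
    (ht : ∀ x, Tendsto (fun n => P n x) atTop (𝓝 x))
    (hinf : ¬ FiniteDimensional 𝕜 X)
    (V : ℕ → Submodule 𝕜 X) (hV1 : ∀ n x, P (n + 1) x - P n x ∈ V n)
    (hV2 : ∀ n, ∀ v ∈ V n, P (n + 1) v = v) (hV3 : ∀ n, ∀ v ∈ V n, P n v = 0)
    (H : ℕ → Type*) [∀ n, NormedAddCommGroup (H n)] [∀ n, NormedSpace 𝕜 (H n)]
    (N : ℕ → ℕ) (R : ∀ n, ℕ → (V n × H n →L[𝕜] V n × H n)) (hN : ∀ n, 1 ≤ N n)
    (hR0 : ∀ n, R n 0 = 0) (hRN : ∀ n z, R n (N n) z = z)
    (hRR : ∀ n k l z, R n k (R n l z) = R n (min k l) z)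
    (hR9 : ∀ n k z, ‖R n k z‖ ≤ 9 * ‖z‖)
    (hRw : ∀ n k, ∃ w : V n × H n, ∀ z, ∃ c : 𝕜, R n (k + 1) z - R n k z = c • w) :
    Nonempty (SchauderBasis 𝕜 (X × c0sum 𝕜 H)) :=
  basis_of_fdd_abs P hP0 hcomp ht hinf V hV1 hV2 hV3 H N R hN hR0 hRN hRR
    hR9 hRw (c0sum 𝕜 H) (c0sg 𝕜 H) (c0ev 𝕜 H) (c0tau 𝕜 H) norm_c0sg_le norm_c0ev_le
    norm_c0tau_le c0tau_zero (fun n t => (c0tau_comp n n t).trans (by rw [min_self]))
    c0ev_tau (fun n a => by
      have := c0tau_sg (𝕜 := 𝕜) n n a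
      rw [if_neg (lt_irrefl _)] at this
      exact this) c0ev_sg c0tau_succ tendsto_c0tau

/-- A space with a finite-dimensional decomposition has a Schauder basis after adding a suitable
`c₀`-sum of finite-dimensional spaces. -/
theorem basis_of_fdd_c {𝕜 : Type*} [RCLike 𝕜]
    {X : Type u} [NormedAddCommGroup X] [NormedSpace 𝕜 X]
    [CompleteSpace X] (P : ℕ → X →L[𝕜] X) (hP0 : P 0 = 0)
    (hcomp : ∀ n m x, P n (P m x) = P (min n m) x)
    (hfin : ∀ n, FiniteDimensional 𝕜 (P n).toLinearMap.range)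
    (ht : ∀ x, Tendsto (fun n => P n x) atTop (𝓝 x))
    (hinf : ¬ FiniteDimensional 𝕜 X) :
    ∃ (H : ℕ → Type u) (_ : ∀ n, NormedAddCommGroup (H n)) (_ : ∀ n, NormedSpace 𝕜 (H n))
      (_ : ∀ n, FiniteDimensional 𝕜 (H n)), Nonempty (SchauderBasis 𝕜 (X × c0sum 𝕜 H)) := by
  set D : ℕ → X →L[𝕜] X := fun n => P (n + 1) - P n with hD
  have hDapp : ∀ n x, D n x = P (n + 1) x - P n x := fun n x => rfl
  set V : ℕ → Submodule 𝕜 X := fun n => (D n).toLinearMap.range with hV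
  have hVfin : ∀ n, FiniteDimensional 𝕜 (V n) := by
    intro n
    have := hfin n
    have := hfin (n + 1)
    have hle : V n ≤ (P (n + 1)).toLinearMap.range ⊔ (P n).toLinearMap.range := by
      rintro _ ⟨x, rfl⟩
      show P (n + 1) x - P n x ∈ _
      exact Submodule.sub_mem _ (Submodule.mem_sup_left ⟨x, rfl⟩) (Submodule.mem_sup_right ⟨x, rfl⟩)
    exact Submodule.finiteDimensional_of_le hle
  have hex := fun n => exists_dil 𝕜 (V n)
  choose N H R hN hR0 hRN hRR hR9 hRw using hex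
  refine ⟨fun n => ↥(H n), fun n => inferInstance, fun n => inferInstance,
    fun n => inferInstance, ?_⟩
  refine basis_of_fdd_c_aux P hP0 hcomp ht hinf V ?_ ?_ ?_ (fun n => ↥(H n)) N R hN hR0 hRN hRR
    hR9 hRw
  · intro n x
    exact ⟨x, rfl⟩
  · rintro n _ ⟨x, rfl⟩
    show P (n + 1) (P (n + 1) x - P n x) = P (n + 1) x - P n x
    rw [map_sub, hcomp, hcomp]
    simp
  · rintro n _ ⟨x, rfl⟩
    show P n (P (n + 1) x - P n x) = 0
    rw [map_sub, hcomp, hcomp]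
    simp

section Assemble

variable {𝕜 : Type} [RCLike 𝕜]

/-- If `E × (⊕ F n)_{c₀}` has a finite-dimensional decomposition, for some sequence of
finite-dimensional spaces `F n`, then `E × C_∞` has a basis. -/
theorem assembleC
    {G : ℕ → Type u} [∀ n, NormedAddCommGroup (G n)]
    [∀ n, NormedSpace 𝕜 (G n)] (h0 : ∀ n, FiniteDimensional 𝕜 (G n))
    (h1 : ∀ (A : Type u) [NormedAddCommGroup A] [NormedSpace 𝕜 A] [FiniteDimensional 𝕜 A] (ε : ℝ),
      0 < ε → ∃ n, ∃ T : A ≃L[𝕜] G n,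
        ‖(T : A →L[𝕜] G n)‖ * ‖(T.symm : G n →L[𝕜] A)‖ ≤ 1 + ε)
    (h2 : ∀ i, {j | Nonempty (G i ≃ₗᵢ[𝕜] G j)}.Infinite)
    {F : ℕ → Type u} [∀ n, NormedAddCommGroup (F n)]
    [∀ n, NormedSpace 𝕜 (F n)] [∀ n, FiniteDimensional 𝕜 (F n)]
    {E : Type u} [NormedAddCommGroup E] [NormedSpace 𝕜 E] [CompleteSpace E]
    (q : ℕ → (E × c0sum 𝕜 F) →L[𝕜] (E × c0sum 𝕜 F))
    (hq1 : ∀ n m x, q n (q m x) = q (min n m) x)
    (hq2 : ∀ n, FiniteDimensional 𝕜 (q n).toLinearMap.range)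
    (hq3 : ∀ x, Tendsto (fun n => q n x) atTop (𝓝 x)) :
    Nonempty (SchauderBasis 𝕜 (E × c0sum 𝕜 G)) := by
  classical
  have hGc : ∀ n, CompleteSpace (G n) := fun n => FiniteDimensional.complete 𝕜 (G n)
  have hFc : ∀ n, CompleteSpace (F n) := fun n => FiniteDimensional.complete 𝕜 (F n)
  let P : ℕ → ((E × c0sum 𝕜 F) × c0sum 𝕜 G →L[𝕜] (E × c0sum 𝕜 F) × c0sum 𝕜 G) := fun n =>
    match n with
    | 0 => 0
    | m + 1 => (q m).prodMap (c0tau 𝕜 G m)
  have hPs : ∀ m z, P (m + 1) z = (q m z.1, c0tau 𝕜 G m z.2) := fun m z => rfl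
  have hP0 : P 0 = 0 := rfl
  have hcomp : ∀ n m x, P n (P m x) = P (min n m) x := by
    intro n m x
    cases n with
    | zero => rw [hP0, Nat.zero_min, hP0]; rfl
    | succ n =>
      cases m with
      | zero => rw [Nat.min_zero, hP0]; simp
      | succ m =>
        rw [Nat.add_min_add_right, hPs, hPs, hPs]
        refine Prod.ext ?_ ?_
        · exact hq1 n m x.1
        · exact c0tau_comp n m x.2
  have hPfin : ∀ n, FiniteDimensional 𝕜 (P n).toLinearMap.range := by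
    intro n
    cases n with
    | zero =>
      rw [hP0]
      have : (0 : (E × c0sum 𝕜 F) × c0sum 𝕜 G →L[𝕜]
          (E × c0sum 𝕜 F) × c0sum 𝕜 G).toLinearMap.range = ⊥ := by
        ext x; simp
      rw [this]
      infer_instance
    | succ n =>
      have f1 := hq2 n
      have f2 : FiniteDimensional 𝕜 (c0tau 𝕜 G n).toLinearMap.range := c0tau_finite n
      have hle : (P (n + 1)).toLinearMap.range ≤
          (q n).toLinearMap.range.map (LinearMap.inl 𝕜 (E × c0sum 𝕜 F) (c0sum 𝕜 G)) ⊔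
          (c0tau 𝕜 G n).toLinearMap.range.map
            (LinearMap.inr 𝕜 (E × c0sum 𝕜 F) (c0sum 𝕜 G)) := by
        rintro _ ⟨z, rfl⟩
        have hz : (P (n + 1)).toLinearMap z =
            LinearMap.inl 𝕜 (E × c0sum 𝕜 F) (c0sum 𝕜 G) (q n z.1) +
            LinearMap.inr 𝕜 (E × c0sum 𝕜 F) (c0sum 𝕜 G) (c0tau 𝕜 G n z.2) := by
          refine Prod.ext ?_ ?_
          · show q n z.1 = q n z.1 + 0
            rw [add_zero]
          · show c0tau 𝕜 G n z.2 = 0 + c0tau 𝕜 G n z.2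
            rw [zero_add]
        rw [hz]
        exact Submodule.add_mem_sup (Submodule.mem_map_of_mem ⟨_, rfl⟩)
          (Submodule.mem_map_of_mem ⟨_, rfl⟩)
      exact Submodule.finiteDimensional_of_le hle
  have hPt : ∀ x, Tendsto (fun n => P n x) atTop (𝓝 x) := by
    intro x
    rw [← tendsto_add_atTop_iff_nat 1]
    have a1 := hq3 x.1
    have a2 := tendsto_c0tau x.2
    exact a1.prodMk_nhds a2
  have hcand := fun (A : Type u) [NormedAddCommGroup A] [NormedSpace 𝕜 A] [FiniteDimensional 𝕜 A] =>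
    infinite_candidates h1 h2 A
  have hinf : ¬ FiniteDimensional 𝕜 ((E × c0sum 𝕜 F) × c0sum 𝕜 G) := by
    intro hfd
    have hfdG : FiniteDimensional 𝕜 (c0sum 𝕜 G) :=
      FiniteDimensional.of_injective
        (LinearMap.inr 𝕜 (E × c0sum 𝕜 F) (c0sum 𝕜 G)) LinearMap.inr_injective
    set d := Module.finrank 𝕜 (c0sum 𝕜 G) with hd
    obtain ⟨n, T, -⟩ := h1 (ULift.{u} (Fin (d + 1) → 𝕜)) 1 one_pos
    have e1 : Module.finrank 𝕜 (G n) = d + 1 := by
      rw [← T.toLinearEquiv.finrank_eq, (ULift.moduleEquiv (R := 𝕜)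
        (M := Fin (d + 1) → 𝕜)).finrank_eq, Module.finrank_fin_fun]
    have e2 : Module.finrank 𝕜 (G n) ≤ d := by
      refine LinearMap.finrank_le_finrank_of_injective
        (f := (c0sg 𝕜 G n).toLinearMap) ?_
      intro x y hxy
      have h3 : c0sg 𝕜 G n x = c0sg 𝕜 G n y := hxy
      have h4 := congrArg (fun t : c0sum 𝕜 G => (t : lp G ∞) n) h3
      simp only [c0sg_self] at h4
      exact h4
    omega
  obtain ⟨H, i1, i2, i3, hbasis⟩ := basis_of_fdd_c P hP0 hcomp hPfin hPt hinf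
  have hHc : ∀ n, CompleteSpace (H n) := fun n => FiniteDimensional.complete 𝕜 (H n)
  -- absorption
  obtain ⟨e1⟩ := absorbC (𝕜 := 𝕜) (F := F) (G := G) 2 one_le_two (fun n => hcand (F n))
    (fun n => hcand (G n))
  obtain ⟨e2⟩ := absorbC (𝕜 := 𝕜) (F := H) (G := G) 2 one_le_two (fun n => hcand (H n))
    (fun n => hcand (G n))
  let a1 : ((E × c0sum 𝕜 F) × c0sum 𝕜 G) ≃L[𝕜] E × c0sum 𝕜 G :=
    (ContinuousLinearEquiv.prodAssoc 𝕜 E (c0sum 𝕜 F) (c0sum 𝕜 G)).trans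
      ((ContinuousLinearEquiv.refl 𝕜 E).prodCongr e1)
  let a2 : (((E × c0sum 𝕜 F) × c0sum 𝕜 G) × c0sum 𝕜 H) ≃L[𝕜] E × c0sum 𝕜 G :=
    ((a1.prodCongr (ContinuousLinearEquiv.refl 𝕜 (c0sum 𝕜 H))).trans
      (ContinuousLinearEquiv.prodAssoc 𝕜 E (c0sum 𝕜 G) (c0sum 𝕜 H))).trans
      ((ContinuousLinearEquiv.refl 𝕜 E).prodCongr
        ((ContinuousLinearEquiv.prodComm 𝕜 (c0sum 𝕜 G) (c0sum 𝕜 H)).trans e2))
  exact basis_transport a2 hbasis

end Assemble

end Pool.Agent.Lib.MP_355270_an
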