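import Pool.Agent.Lib.MP_355270_an.C0.Lusky

/-!
# Spaces isometric to the `c_0`-sum, described by their coordinates
-/

open Filter Topology
open scoped ENNReal

namespace Pool.Agent.Lib.MP_355270_an

universe u

variable {𝕜 : Type} [RCLike 𝕜] {G : ℕ → Type u} [∀ n, NormedAddCommGroup (G n)]
  [∀ n, NormedSpace 𝕜 (G n)]

/-- A space with the coordinates of the `c_0`-sum is isomorphic to it. -/
theorem c0_of_coord {C : Type u} [NormedAddCommGroup C] [NormedSpace 𝕜 C]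
    (π : ∀ n, C →ₗ[𝕜] G n) (h1 : ∀ x, Tendsto (fun n => ‖π n x‖) atTop (𝓝 0))
    (h2 : ∀ y : ∀ n, G n, Tendsto (fun n => ‖y n‖) atTop (𝓝 0) → ∃ x, ∀ n, π n x = y n)
    (h3 : ∀ x, IsLUB (Set.range fun n => ‖π n x‖) ‖x‖) : Nonempty (C ≃L[𝕜] c0sum 𝕜 G) := by
  let T : C →ₗ[𝕜] c0sum 𝕜 G :=
    { toFun := fun x => c0mk 𝕜 (fun n => π n x) (h1 x)
      map_add' := fun x y => c0_ext fun n => by
        show π n (x + y) = π n x + π n y
        exact map_add _ _ _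
      map_smul' := fun c x => c0_ext fun n => by
        show π n (c • x) = c • π n x
        exact map_smul _ _ _ }
  have hTn : ∀ x n, (T x : lp G ∞) n = π n x := fun x n => rfl
  have hnorm : ∀ x, ‖T x‖ = ‖x‖ := by
    intro x
    refine le_antisymm (c0_norm_le fun n => ?_) ((h3 x).2 ?_)
    · rw [hTn]
      exact (h3 x).1 ⟨n, rfl⟩
    · rintro _ ⟨n, rfl⟩
      show ‖π n x‖ ≤ ‖T x‖
      rw [← hTn]
      exact c0_norm_apply_le _ n
  have hsurj : Function.Surjective T := by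
    intro y
    obtain ⟨x, hx⟩ := h2 (fun n => (y : lp G ∞) n) (c0_tendsto y)
    exact ⟨x, c0_ext fun n => by rw [hTn]; exact hx n⟩
  let L : C →ₗᵢ[𝕜] c0sum 𝕜 G := ⟨T, hnorm⟩
  exact ⟨(LinearIsometryEquiv.ofSurjective L hsurj).toContinuousLinearEquiv⟩

/-- The `c_0`-sum has the coordinates of a `c_0`-sum. -/
theorem c0sum_coord : ∃ π : ∀ n, c0sum 𝕜 G →ₗ[𝕜] G n,
    (∀ x, Tendsto (fun n => ‖π n x‖) atTop (𝓝 0)) ∧
    (∀ y : ∀ n, G n, Tendsto (fun n => ‖y n‖) atTop (𝓝 0) → ∃ x, ∀ n, π n x = y n) ∧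
    ∀ x, IsLUB (Set.range fun n => ‖π n x‖) ‖x‖ := by
  refine ⟨fun n => (c0ev 𝕜 G n).toLinearMap, fun x => c0_tendsto x, fun y hy =>
    ⟨c0mk 𝕜 y hy, fun n => rfl⟩, fun x => ⟨?_, fun C hC => ?_⟩⟩
  · rintro _ ⟨n, rfl⟩
    exact c0_norm_apply_le x n
  · exact c0_norm_le fun n => hC ⟨n, rfl⟩

end Pool.Agent.Lib.MP_355270_an
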