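import Mathlib
import Pool.Agent.Lib.MP_355270_an.StepA
import Pool.Agent.Lib.MP_355270_an.C0.Assemble

open Filter Topology
open scoped ENNReal

namespace Pool.Agent.Lib.MP_355270_an

universe u

section Lusky

variable {𝕜 : Type*} [RCLike 𝕜] {E : Type*} [NormedAddCommGroup E] [NormedSpace 𝕜 E]
variable (V : ℕ → Submodule 𝕜 E) (w : ℕ → E →L[𝕜] E) (hw : ∀ n x, w n x ∈ V n)

/-- The `n`-th coordinate of the convergent sequence `y + (w k x)_k` belonging to `(x, y)`. -/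
noncomputable def cA (n : ℕ) : E × c0sum 𝕜 (fun n => ↥(V n)) →L[𝕜] ↥(V n) :=
  (c0ev 𝕜 (fun n => ↥(V n)) n).comp (ContinuousLinearMap.snd 𝕜 E (c0sum 𝕜 (fun n => ↥(V n)))) +
    ((w n).codRestrict (V n) (hw n)).comp
      (ContinuousLinearMap.fst 𝕜 E (c0sum 𝕜 (fun n => ↥(V n))))

theorem cA_coe (n : ℕ) (z : E × c0sum 𝕜 (fun n => ↥(V n))) :
    ((cA V w hw n z : V n) : E) =
      (((z.2 : lp (fun n => ↥(V n)) ∞) n : V n) : E) + w n z.1 := rfl

theorem norm_cA_le {K : ℝ} (hK : ∀ n, ‖w n‖ ≤ K) (n : ℕ) (z : E × c0sum 𝕜 (fun n => ↥(V n))) :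
    ‖((cA V w hw n z : V n) : E)‖ ≤ (1 + K) * ‖z‖ := by
  have hK0 : 0 ≤ K := (norm_nonneg _).trans (hK 0)
  rw [cA_coe]
  calc ‖(((z.2 : lp (fun n => ↥(V n)) ∞) n : V n) : E) + w n z.1‖
      ≤ ‖(((z.2 : lp (fun n => ↥(V n)) ∞) n : V n) : E)‖ + ‖w n z.1‖ := norm_add_le _ _
    _ ≤ ‖z.2‖ + K * ‖z.1‖ :=
      add_le_add (c0_norm_apply_le z.2 n) ((w n).le_of_opNorm_le (hK n) _)
    _ ≤ ‖z‖ + K * ‖z‖ :=
      add_le_add (norm_snd_le z) (mul_le_mul_of_nonneg_left (norm_fst_le z) hK0)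
    _ = (1 + K) * ‖z‖ := by ring

/-- The coordinates of the second component of the projections. -/
noncomputable def cB (m k : ℕ) : E × c0sum 𝕜 (fun n => ↥(V n)) →L[𝕜] ↥(V k) :=
  if k ≤ m then cA V w hw k -
    ((w k).codRestrict (V k) (hw k)).comp ((V m).subtypeL.comp (cA V w hw m)) else 0

theorem cB_coe {m k : ℕ} (h : k ≤ m) (z : E × c0sum 𝕜 (fun n => ↥(V n))) :
    ((cB V w hw m k z : V k) : E) = (cA V w hw k z : V k) - w k (cA V w hw m z : V m) := by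
  unfold cB
  rw [if_pos h]
  rfl

theorem cB_zero {m k : ℕ} (h : m < k) (z : E × c0sum 𝕜 (fun n => ↥(V n))) :
    cB V w hw m k z = 0 := by
  unfold cB
  rw [if_neg (by omega)]
  rfl

/-- The uniform formula. -/
theorem cB_eq (hmono : Monotone V) (hfix : ∀ n, ∀ y ∈ V n, w (n + 1) y = y) (m k : ℕ)
    (z : E × c0sum 𝕜 (fun n => ↥(V n))) :
    ((cB V w hw m k z : V k) : E) =
      (cA V w hw (min k m) z : V (min k m)) - w k (cA V w hw m z : V m) := by
  rcases le_or_gt k m with h | h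
  · rw [cB_coe V w hw h, min_eq_left h]
  · rw [cB_zero V w hw h, min_eq_right h.le]
    obtain ⟨j, rfl⟩ : ∃ j, k = j + 1 := ⟨k - 1, by omega⟩
    rw [hfix j _ (hmono (by omega : m ≤ j) (cA V w hw m z).2), sub_self]
    rfl

theorem norm_cB_le {K : ℝ} (hK : ∀ n, ‖w n‖ ≤ K) (m k : ℕ)
    (z : E × c0sum 𝕜 (fun n => ↥(V n))) :
    ‖cB V w hw m k z‖ ≤ ((1 + K) * (1 + K)) * ‖z‖ := by
  have hK0 : 0 ≤ K := (norm_nonneg _).trans (hK 0)
  rcases le_or_gt k m with h | h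
  · have e : ‖cB V w hw m k z‖ = ‖((cB V w hw m k z : V k) : E)‖ := rfl
    rw [e, cB_coe V w hw h]
    calc ‖((cA V w hw k z : V k) : E) - w k (cA V w hw m z : V m)‖
        ≤ ‖((cA V w hw k z : V k) : E)‖ + ‖w k (cA V w hw m z : V m)‖ := norm_sub_le _ _
      _ ≤ (1 + K) * ‖z‖ + K * ((1 + K) * ‖z‖) := by
        refine add_le_add (norm_cA_le V w hw hK k z) ?_
        refine ((w k).le_of_opNorm_le (hK k) _).trans ?_
        exact mul_le_mul_of_nonneg_left (norm_cA_le V w hw hK m z) hK0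
      _ = _ := by ring
  · rw [cB_zero V w hw h, norm_zero]
    positivity

/-- The projections. -/
noncomputable def cP (K : ℝ) (hK : ∀ n, ‖w n‖ ≤ K) (m : ℕ) :
    E × c0sum 𝕜 (fun n => ↥(V n)) →L[𝕜] E × c0sum 𝕜 (fun n => ↥(V n)) :=
  ((V m).subtypeL.comp (cA V w hw m)).prod
    (c0lift (fun k => cB V w hw m k) ((1 + K) * (1 + K)) (fun k z => norm_cB_le V w hw hK m k z)
      (fun z => by
        refine tendsto_const_nhds.congr' ?_
        filter_upwards [eventually_gt_atTop m] with k hk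
        rw [cB_zero V w hw hk, norm_zero]))

variable (K : ℝ) (hK : ∀ n, ‖w n‖ ≤ K)

theorem cP_fst (m : ℕ) (z : E × c0sum 𝕜 (fun n => ↥(V n))) :
    (cP V w hw K hK m z).1 = (cA V w hw m z : V m) := rfl

theorem cP_snd (m k : ℕ) (z : E × c0sum 𝕜 (fun n => ↥(V n))) :
    (((cP V w hw K hK m z).2 : c0sum 𝕜 (fun n => ↥(V n))) : lp (fun n => ↥(V n)) ∞) k =
      cB V w hw m k z := rfl

theorem cA_cP (hmono : Monotone V) (hfix : ∀ n, ∀ y ∈ V n, w (n + 1) y = y) (n m : ℕ)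
    (z : E × c0sum 𝕜 (fun n => ↥(V n))) :
    ((cA V w hw n (cP V w hw K hK m z) : V n) : E) =
      (cA V w hw (min n m) z : V (min n m)) := by
  rw [cA_coe, cP_fst, cP_snd, cB_eq V w hw hmono hfix]
  abel

theorem cP_comp (hmono : Monotone V) (hfix : ∀ n, ∀ y ∈ V n, w (n + 1) y = y) (n m : ℕ)
    (z : E × c0sum 𝕜 (fun n => ↥(V n))) :
    cP V w hw K hK n (cP V w hw K hK m z) = cP V w hw K hK (min n m) z := by
  refine Prod.ext ?_ (c0_ext (fun k => Subtype.ext ?_))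
  · rw [cP_fst, cP_fst, cA_cP V w hw K hK hmono hfix]
  · rw [cP_snd, cP_snd, cB_eq V w hw hmono hfix, cB_eq V w hw hmono hfix,
      cA_cP V w hw K hK hmono hfix, cA_cP V w hw K hK hmono hfix, min_assoc]

theorem cP_tendsto (hwt : ∀ x, Tendsto (fun n => w n x) atTop (𝓝 x))
    (z : E × c0sum 𝕜 (fun n => ↥(V n))) :
    Tendsto (fun n => cP V w hw K hK n z) atTop (𝓝 z) := by
  have hK0 : 0 ≤ K := (norm_nonneg _).trans (hK 0)
  have h1 : Tendsto (fun n => ((cA V w hw n z : V n) : E)) atTop (𝓝 z.1) := by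
    have a1 : Tendsto (fun n => (((z.2 : lp (fun n => ↥(V n)) ∞) n : V n) : E)) atTop (𝓝 0) :=
      squeeze_zero_norm (fun n => le_rfl) (c0_tendsto z.2)
    have a2 := a1.add (hwt z.1)
    rw [zero_add] at a2
    exact a2
  have h2 : Tendsto (fun n => (cP V w hw K hK n z).2) atTop (𝓝 z.2) := by
    rw [Metric.tendsto_atTop]
    intro ε hε
    have b1 : Tendsto (fun n => K * ‖z.1 - (cA V w hw n z : V n)‖) atTop (𝓝 0) := by
      have b0 : Tendsto (fun n => z.1 - ((cA V w hw n z : V n) : E)) atTop (𝓝 (z.1 - z.1)) :=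
        tendsto_const_nhds.sub h1
      rw [sub_self] at b0
      have b2 := b0.norm.const_mul K
      simpa using b2
    obtain ⟨N1, hN1⟩ := Metric.tendsto_atTop.mp b1 (ε / 2) (half_pos hε)
    obtain ⟨N2, hN2⟩ := Metric.tendsto_atTop.mp (c0_tendsto z.2) (ε / 2) (half_pos hε)
    refine ⟨max N1 N2, fun n hn => ?_⟩
    have c1 := hN1 n ((le_max_left _ _).trans hn)
    rw [Real.dist_eq, sub_zero, abs_of_nonneg (by positivity)] at c1
    rw [dist_eq_norm]
    refine lt_of_le_of_lt ?_ (half_lt_self hε)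
    refine c0_norm_le (fun k => ?_)
    show ‖(((cP V w hw K hK n z).2 : c0sum 𝕜 (fun n => ↥(V n))) : lp (fun n => ↥(V n)) ∞) k -
      (z.2 : lp (fun n => ↥(V n)) ∞) k‖ ≤ _
    rw [cP_snd]
    rcases le_or_gt k n with h | h
    · show ‖((cB V w hw n k z : V k) : E) - (((z.2 : lp (fun n => ↥(V n)) ∞) k : V k) : E)‖ ≤ _
      rw [cB_coe V w hw h, cA_coe V w hw k]
      have e : (((z.2 : lp (fun n => ↥(V n)) ∞) k : V k) : E) + w k z.1 -
          w k (cA V w hw n z : V n) - (((z.2 : lp (fun n => ↥(V n)) ∞) k : V k) : E) =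
          w k (z.1 - (cA V w hw n z : V n)) := by
        rw [map_sub]
        abel
      rw [e]
      exact ((w k).le_of_opNorm_le (hK k) _).trans c1.le
    · rw [cB_zero V w hw h, zero_sub, norm_neg]
      have c2 := hN2 k (((le_max_right _ _).trans hn).trans h.le)
      rw [Real.dist_eq, sub_zero, abs_of_nonneg (norm_nonneg _)] at c2
      exact c2.le
  exact h1.prodMk_nhds h2

theorem cP_finite (hVfin : ∀ n, FiniteDimensional 𝕜 (V n)) (n : ℕ) :
    FiniteDimensional 𝕜 (cP V w hw K hK n).toLinearMap.range := by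
  have f2 : FiniteDimensional 𝕜 (c0tau 𝕜 (fun n => ↥(V n)) (n + 1)).toLinearMap.range :=
    c0tau_finite (n + 1)
  have hle : (cP V w hw K hK n).toLinearMap.range ≤
      (V n).map (LinearMap.inl 𝕜 E (c0sum 𝕜 (fun n => ↥(V n)))) ⊔
      (c0tau 𝕜 (fun n => ↥(V n)) (n + 1)).toLinearMap.range.map
        (LinearMap.inr 𝕜 E (c0sum 𝕜 (fun n => ↥(V n)))) := by
    rintro _ ⟨z, rfl⟩
    have hz : (cP V w hw K hK n).toLinearMap z =
        LinearMap.inl 𝕜 E (c0sum 𝕜 (fun n => ↥(V n))) (cP V w hw K hK n z).1 +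
        LinearMap.inr 𝕜 E (c0sum 𝕜 (fun n => ↥(V n)))
          (c0tau 𝕜 (fun n => ↥(V n)) (n + 1) (cP V w hw K hK n z).2) := by
      refine Prod.ext ?_ ?_
      · show (cP V w hw K hK n z).1 = (cP V w hw K hK n z).1 + 0
        rw [add_zero]
      · show (cP V w hw K hK n z).2 =
          0 + c0tau 𝕜 (fun n => ↥(V n)) (n + 1) (cP V w hw K hK n z).2
        rw [zero_add]
        refine c0_ext (fun k => ?_)
        rw [c0tau_coe]
        by_cases h : k < n + 1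
        · rw [if_pos h]
        · rw [if_neg h, cP_snd, cB_zero V w hw (by omega)]
    rw [hz]
    exact Submodule.add_mem_sup (Submodule.mem_map_of_mem (cA V w hw n z).2)
      (Submodule.mem_map_of_mem ⟨_, rfl⟩)
  exact Submodule.finiteDimensional_of_le hle

end Lusky

/-- Lusky's theorem: if `E` has an approximative basis, then `E × C_∞` has a basis, where
`C_∞` is the `c₀`-sum of the spaces `G n`. -/
theorem lusky {𝕜 : Type} [RCLike 𝕜] {G : ℕ → Type u} [∀ n, NormedAddCommGroup (G n)]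
    [∀ n, NormedSpace 𝕜 (G n)] (h0 : ∀ n, FiniteDimensional 𝕜 (G n))
    (h1 : ∀ (A : Type u) [NormedAddCommGroup A] [NormedSpace 𝕜 A] [FiniteDimensional 𝕜 A] (ε : ℝ),
      0 < ε → ∃ n, ∃ T : A ≃L[𝕜] G n,
        ‖(T : A →L[𝕜] G n)‖ * ‖(T.symm : G n →L[𝕜] A)‖ ≤ 1 + ε)
    (h2 : ∀ i, {j | Nonempty (G i ≃ₗᵢ[𝕜] G j)}.Infinite)
    {E : Type u} [NormedAddCommGroup E] [NormedSpace 𝕜 E] [CompleteSpace E]
    (u : ℕ → E →L[𝕜] E) (hfin : ∀ n, FiniteDimensional 𝕜 (u n).toLinearMap.range)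
    (ht : ∀ x, Tendsto (fun n => u n x) atTop (𝓝 x)) :
    Nonempty (SchauderBasis 𝕜 (E × c0sum 𝕜 G)) := by
  obtain ⟨V, w, K, hVfin, hmono, hw, hfix, hK, hwt⟩ := normalize u hfin ht
  exact assembleC h0 h1 h2 (F := fun n => ↥(V n)) (cP V w hw K hK)
    (cP_comp V w hw K hK hmono hfix) (cP_finite V w hw K hK hVfin)
    (cP_tendsto V w hw K hK hwt)

end Pool.Agent.Lib.MP_355270_an
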